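import Mathlib
import Pool.Agent.V11150.PIntMultiAsymp

set_option autoImplicit false

namespace Pool.Agent.Results.MP_890668_co.MultipartiteAsymptotics

open Filter Asymptotics Pool.Agent.V11150.PInt

/-- Q2: for all `p ≥ 1` and `n ≥ 2`, `ϑ_p(K^{(k)}_{n,…,n}) ∼ (n / 2) log₂ k` as `k → ∞`. -/
theorem result : ∀ p n : ℕ, 1 ≤ p → 2 ≤ n →
    (fun k : ℕ => (theta p (multi (Fin n) (Fin k)) : ℝ)) ~[atTop]
      (fun k : ℕ => (n : ℝ) / 2 * Real.logb 2 k) :=
  fun _ _ hp hn => multi_asymp hp hn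

end Pool.Agent.Results.MP_890668_co.MultipartiteAsymptotics
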