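import Mathlib
import Pool.Agent.V11150.PIntAsymp

set_option autoImplicit false

namespace Pool.Agent.Results.MP_890668_co.TensorAsymptotics

open Filter Asymptotics Pool.Agent.V11150.PInt

/-- Q1: for all `p ≥ 1` and `n ≥ 2`, `ϑ_p(𝒦(n × k)) ∼ k² / p` as `k → ∞`. -/
theorem result : ∀ p n : ℕ, 1 ≤ p → 2 ≤ n →
    (fun k : ℕ => (theta p (tensor (Fin n) (Fin k)) : ℝ)) ~[atTop]
      (fun k : ℕ => (k : ℝ) ^ 2 / p) :=
  fun _ _ hp hn => tensor_asymp hp hn

end Pool.Agent.Results.MP_890668_co.TensorAsymptotics
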